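import Pool.Agent.H181R5.NLT.Stmts

set_option autoImplicit false

/-! Task NUM1 of project H181-NLT. -/

namespace Pool.Agent.H252R5.NLT

theorem pw (n : ℕ) : ((n : ℝ) ^ (1 / 4 : ℝ)) ^ 4 = n := by
  rw [← Real.rpow_natCast, ← Real.rpow_mul (Nat.cast_nonneg n)]
  norm_num

theorem num1_core (A B S x : ℝ) (hA : 1 ≤ A) (hB : 1 ≤ B) (hS : 0 ≤ S)
    (h1 : S ^ 4 = A ^ 4 + B ^ 4 + x) (h2 : x + 1 ≤ S ^ 3) : S ≤ A + B := by
  by_contra hlt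
  push Not at hlt
  obtain ⟨u, rfl⟩ : ∃ u, A = 1 + u := ⟨A - 1, by ring⟩
  obtain ⟨v, rfl⟩ : ∃ v, B = 1 + v := ⟨B - 1, by ring⟩
  have hu : 0 ≤ u := by linarith
  have hv : 0 ≤ v := by linarith
  have h3 : (1 + u) ^ 4 + (1 + v) ^ 4 ≤ (1 + u + v) ^ 4 + 1 := by
    have h4 : (1 + u + v) ^ 4 + 1 - ((1 + u) ^ 4 + (1 + v) ^ 4) =
      12 * u * v + 12 * u ^ 2 * v + 12 * u * v ^ 2 + 4 * u ^ 3 * v + 6 * u ^ 2 * v ^ 2 +
        4 * u * v ^ 3 := by ring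
    have h5 : 0 ≤ 12 * u * v + 12 * u ^ 2 * v + 12 * u * v ^ 2 + 4 * u ^ 3 * v +
      6 * u ^ 2 * v ^ 2 + 4 * u * v ^ 3 := by positivity
    linarith
  have h6 : (1 + u + v) ^ 4 < (S - 1) ^ 4 := by
    apply pow_lt_pow_left₀ (by linarith) (by linarith) (by norm_num)
  have h7 : (S - 1) ^ 4 ≤ S ^ 3 * (S - 1) := by
    have h8 : (S - 1) ^ 3 ≤ S ^ 3 := pow_le_pow_left₀ (by linarith) (by linarith) 3
    have h9 : (S - 1) ^ 4 = (S - 1) ^ 3 * (S - 1) := by ring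
    rw [h9]
    exact mul_le_mul_of_nonneg_right h8 (by linarith)
  have h10 : S ^ 3 * (S - 1) = S ^ 4 - S ^ 3 := by ring
  linarith

theorem num1 : Pool.Agent.H181R5.NLT.TaskNum1 := by
  intro a b x s ha hb hs hx
  have hA : (1 : ℝ) ≤ (a : ℝ) ^ (1 / 4 : ℝ) :=
    Real.one_le_rpow (by exact_mod_cast ha) (by norm_num)
  have hB : (1 : ℝ) ≤ (b : ℝ) ^ (1 / 4 : ℝ) :=
    Real.one_le_rpow (by exact_mod_cast hb) (by norm_num)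
  have hS : (0 : ℝ) ≤ (s : ℝ) ^ (1 / 4 : ℝ) := Real.rpow_nonneg (Nat.cast_nonneg s) _
  refine num1_core _ _ _ (x : ℝ) hA hB hS ?_ ?_
  · rw [pw, pw, pw]
    exact_mod_cast hs.symm
  · have h1 : ((x : ℝ) + 1) ^ 4 ≤ (((s : ℝ) ^ (1 / 4 : ℝ)) ^ 3) ^ 4 := by
      rw [← pow_mul, mul_comm 3 4, pow_mul, pw]
      exact_mod_cast hx
    exact le_of_pow_le_pow_left₀ (by norm_num) (by positivity) h1

end Pool.Agent.H252R5.NLT
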